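import Pool.Agent.N889.AO.Stm

/-!
# Project AO: the Galois equivariant character (job CHR)
-/

set_option autoImplicit false
open Polynomial Matrix

namespace Pool.Agent.N901.AO

open Pool.Agent.N889.AO

theorem integral_zpow {K : Type} [Field K] {x : K} (h : IsIntegral ℤ x) (h' : IsIntegral ℤ x⁻¹)
    (n : ℤ) : IsIntegral ℤ (x ^ n) := by
  rcases n with n | n
  · rw [Int.ofNat_eq_natCast, zpow_natCast]
    exact h.pow n
  · rw [zpow_negSucc, ← inv_pow]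
    exact h'.pow _

theorem integral_prod {K : Type} [Field K] [NumberField K] {u : K} (h : IsIntegral ℤ u)
    (h' : IsIntegral ℤ u⁻¹) (m : (K ≃ₐ[ℚ] K) → ℤ) :
    IsIntegral ℤ (∏ σ : K ≃ₐ[ℚ] K, (σ u) ^ (m σ)) := by
  refine IsIntegral.prod _ fun σ _ => ?_
  have h1 : IsIntegral ℤ (σ u) := h.map (σ.toRingEquiv.toRingHom.toIntAlgHom)
  have h2 : IsIntegral ℤ (σ u)⁻¹ := by
    rw [← map_inv₀]
    exact h'.map (σ.toRingEquiv.toRingHom.toIntAlgHom)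
  exact integral_zpow h1 h2 _

/-- all complex embeddings are conjugate -/
theorem conj {K : Type} [Field K] [NumberField K] [IsGalois ℚ K] (φ : K →+* ℝ) (ψ : K →+* ℂ) :
    ∃ τ : K ≃ₐ[ℚ] K, ∀ x, ψ x = ((φ (τ x) : ℝ) : ℂ) := by
  let φ' : K →ₐ[ℚ] ℂ := (Complex.ofRealHom.comp φ).toRatAlgHom
  let g : (K ≃ₐ[ℚ] K) → (K →ₐ[ℚ] ℂ) := fun τ => φ'.comp τ.toAlgHom
  have hinj : Function.Injective g := by
    intro τ τ' h
    ext x
    have h1 : φ' (τ x) = φ' (τ' x) := congrArg (fun f : K →ₐ[ℚ] ℂ => f x) h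
    exact φ'.toRingHom.injective h1
  have hcard : Fintype.card (K ≃ₐ[ℚ] K) = Fintype.card (K →ₐ[ℚ] ℂ) := by
    rw [AlgHom.card, ← IsGalois.card_aut_eq_finrank ℚ K, Nat.card_eq_fintype_card]
  have hbij := (Fintype.bijective_iff_injective_and_card g).2 ⟨hinj, hcard⟩
  obtain ⟨τ, hτ⟩ := hbij.2 ψ.toRatAlgHom
  refine ⟨τ, fun x => ?_⟩
  exact (congrArg (fun f : K →ₐ[ℚ] ℂ => f x) hτ).symm

theorem stmChr (hU : StmUni) : StmChr := by
  classical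
  intro K _ _ _ φ E hE hirr
  obtain ⟨u, hu1, hu2, hu0, hu⟩ := hU K φ
  -- automorphisms which move the elements
  have hs : ∀ e : E, ∃ σ : K ≃ₐ[ℚ] K, σ (e : K) ≠ e := by
    intro e
    by_contra hcon
    push Not at hcon
    obtain ⟨q, hq⟩ := (IsGalois.mem_range_algebraMap_iff_fixed (F := ℚ) (e : K)).2 hcon
    exact hirr e e.2 q hq.symm
  choose s hs using hs
  obtain ⟨l, hl⟩ := Module.exists_dual_forall_apply_ne_zero (K := ℚ) (M := K)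
    (fun e : E => s e (e : K) - e) (fun e => sub_ne_zero.2 (hs e))
  obtain ⟨b, hb⟩ := IsLocalization.exist_integer_multiples (nonZeroDivisors ℤ) E
    (fun e : K => (l e : ℚ))
  have hb0 : (b : ℤ) ≠ 0 := nonZeroDivisors.ne_zero b.2
  let L : K → ℤ := fun e => ⌊((b : ℤ) : ℚ) * l e⌋
  have hL : ∀ e ∈ E, (L e : ℚ) = ((b : ℤ) : ℚ) * l e := by
    intro e he
    obtain ⟨z, hz⟩ := hb e he
    have hz' : (z : ℚ) = ((b : ℤ) : ℚ) * l e := by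
      have : ((b : ℤ) • l e : ℚ) = ((b : ℤ) : ℚ) * l e := by rw [zsmul_eq_mul]
      rw [← this]
      exact hz
    show ((⌊((b : ℤ) : ℚ) * l e⌋ : ℤ) : ℚ) = _
    rw [← hz', Int.floor_intCast]
  have hinv : ∀ e ∈ E, ∀ σ : K ≃ₐ[ℚ] K, (σ⁻¹ : K ≃ₐ[ℚ] K) e ∈ E := fun e he σ => hE e he _
  refine ⟨fun e => ∏ σ : K ≃ₐ[ℚ] K, (σ u) ^ (L ((σ⁻¹ : K ≃ₐ[ℚ] K) e)), ?_, ?_, ?_⟩
  · intro e he
    have hσ0 : ∀ σ : K ≃ₐ[ℚ] K, σ u ≠ 0 := fun σ => by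
      rw [Ne, map_eq_zero]; exact hu0
    refine ⟨integral_prod hu1 hu2 _, ?_, ?_, ?_⟩
    · rw [← Finset.prod_inv_distrib]
      have h1 := integral_prod hu1 hu2 (fun σ => -L ((σ⁻¹ : K ≃ₐ[ℚ] K) e))
      simpa only [_root_.zpow_neg] using h1
    · exact Finset.prod_ne_zero_iff.2 fun σ _ => zpow_ne_zero _ (hσ0 σ)
    · intro ψ hψ
      set T : K := ∏ σ : K ≃ₐ[ℚ] K, (σ u) ^ (L ((σ⁻¹ : K ≃ₐ[ℚ] K) e)) with hT
      obtain ⟨τ₀, hτ₀⟩ := conj φ ψ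
      rw [hτ₀, Complex.norm_real, Real.norm_eq_abs] at hψ
      have h1 : φ (τ₀ T) ^ 2 = 1 := by rw [← sq_abs, hψ, one_pow]
      have h2 : T ^ 2 = 1 := by
        have h3 : φ (τ₀ (T ^ 2)) = φ (τ₀ 1) := by
          rw [map_pow, map_pow, h1, map_one, map_one]
        exact τ₀.injective (φ.injective h3)
      have h4 : ∀ τ : K ≃ₐ[ℚ] K, |φ (τ T)| = 1 := by
        intro τ
        have h5 : φ (τ T) ^ 2 = 1 := by
          rw [← map_pow, ← map_pow, h2, map_one, map_one]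
        have h6 : |φ (τ T)| ^ 2 = 1 := by rw [sq_abs, h5]
        exact (pow_eq_one_iff_of_nonneg (abs_nonneg _) two_ne_zero).1 h6
      have h5 := hu _ h4 ((s ⟨e, he⟩)⁻¹) 1
      have h6 : L (s ⟨e, he⟩ e) = L e := by
        simpa using h5
      have h7 := hL e he
      have h8 := hL _ (hE e he (s ⟨e, he⟩))
      rw [h6, h7] at h8
      have h9 : ((b : ℤ) : ℚ) ≠ 0 := by exact_mod_cast hb0
      have h10 := mul_left_cancel₀ h9 h8
      apply hl ⟨e, he⟩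
      show l (s ⟨e, he⟩ e - e) = 0
      rw [map_sub, h10, sub_self]
  · intro e he f hf hef
    show ∏ σ : K ≃ₐ[ℚ] K, (σ u) ^ (L ((σ⁻¹ : K ≃ₐ[ℚ] K) (e + f))) = _
    rw [← Finset.prod_mul_distrib]
    refine Finset.prod_congr rfl fun σ _ => ?_
    have hσ0 : σ u ≠ 0 := by rw [Ne, map_eq_zero]; exact hu0
    rw [← zpow_add₀ hσ0]
    congr 1
    have h1 := hL _ (hinv e he σ)
    have h2 := hL _ (hinv f hf σ)
    have h3 := hL _ (hinv _ hef σ)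
    have h4 : ((L ((σ⁻¹ : K ≃ₐ[ℚ] K) (e + f)) : ℤ) : ℚ) =
        ((L ((σ⁻¹ : K ≃ₐ[ℚ] K) e) + L ((σ⁻¹ : K ≃ₐ[ℚ] K) f) : ℤ) : ℚ) := by
      push_cast
      rw [h1, h2, h3, map_add, map_add, mul_add]
    exact_mod_cast h4
  · intro e he τ
    show τ (∏ σ : K ≃ₐ[ℚ] K, (σ u) ^ (L ((σ⁻¹ : K ≃ₐ[ℚ] K) e))) =
      ∏ σ : K ≃ₐ[ℚ] K, (σ u) ^ (L ((σ⁻¹ : K ≃ₐ[ℚ] K) (τ e)))
    rw [map_prod]
    refine Fintype.prod_equiv (Equiv.mulLeft τ) _ _ fun σ => ?_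
    rw [map_zpow₀, Equiv.coe_mulLeft, AlgEquiv.mul_apply, _root_.mul_inv_rev, AlgEquiv.mul_apply]
    congr 3
    exact (AlgEquiv.symm_apply_apply τ e).symm

end Pool.Agent.N901.AO
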